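import Pool.Agent.H71.Haar.Final

/-!
# MP_c04e18_an: the Haar basis is almost greedy with respect to the WCGA in `L_p`, `p > 2`

All definitions used in the statement (`LpUnit`, `HaarIndex`, `haar`, `sigma`, `IsWCGA`) are in
`Pool/Agent/H71/Haar/Defs.lean`.
-/

namespace Pool.Agent.Results.MP_c04e18_an.HaarAlmostGreedy

open Pool.Agent.H71.Haar

/-- Positive answer to Q1: for every `2 < p < ∞` the Haar system (normalised in `L_p`) is almost
greedy with respect to the weak Chebyshev greedy algorithm in `L_p([0,1])`. -/
theorem result (p : ℝ) [Fact (1 ≤ ENNReal.ofReal p)] (hp : 2 < p) :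
    AlmostGreedyWCGA (haar p) :=
  haar_almost_greedy hp

end Pool.Agent.Results.MP_c04e18_an.HaarAlmostGreedy
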